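import Pool.Agent.N924.TH.Null
import Pool.Agent.W723.SecC.D1a
import Mathlib.Algebra.Polynomial.Cardinal

set_option autoImplicit false
set_option linter.unusedSectionVars false

/-! # One null set for sequences uniformly distributed modulo all `q` and infinitely many sets of primes

For almost all `t` every `z_l(t)`, `l ≤ k`, has an exact prime divisor above `k` in a given set of primes
with divergent sum of reciprocals, which does not divide the others. Uses the engine `N666.TM` of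
helper666 and `UD`, `UD.well` of helper924. -/

namespace Pool.Agent.N546.ZT

open Finset Filter Pool.Agent.Y722.HS Pool.Agent.N666.TM
open Pool.Agent.N924.TH (UD)

section
variable {ι : Type} [Fintype ι] [DecidableEq ι]

/-- Exact divisors in a set of primes with divergent sum of reciprocals. -/
theorem ex_dens_in {S : ℕ → Finset ℕ} {x : ℕ → ι → ℤ}
    (hw : ∀ H : ℕ, ∃ N₀ : ℕ, ∀ N : ℕ, N₀ ≤ N → Well (S N) x H)
    (Q : Set ℕ) (hQ : ∀ p ∈ Q, p.Prime)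
    (hdiv : ∀ B : ℝ, ∃ y : ℕ, B ≤ ∑ p ∈ range y, Set.indicator Q (fun p : ℕ => 1 / (p : ℝ)) p)
    (D : ℕ) (ε : ℝ) (hε : 0 < ε) : ∃ N₀ : ℕ, ∀ N : ℕ, N₀ ≤ N →
      ({n : ℕ | n ∈ S N ∧ ¬ ∀ l : ι, ∃ p ∈ Q, D < p ∧ Ex l p (x n)}.ncard : ℝ) ≤
        ε * (S N).card := by
  classical
  set r := Fintype.card ι with hr
  set ε' : ℝ := ε / (2 * (r + 1)) with hε'
  have hε'0 : 0 < ε' := by positivity
  -- the primes
  obtain ⟨y, hy⟩ := hdiv (2 ^ r * (2 / ε') + (D + 1))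
  set P : Finset ℕ := (Finset.range y).filter (fun p => p ∈ Q ∧ D < p) with hP
  have hPsum : 2 ^ r * (2 / ε') ≤ ∑ p ∈ P, 1 / (p : ℝ) := by
    have h1 : ∑ p ∈ range y, Set.indicator Q (fun p : ℕ => 1 / (p : ℝ)) p ≤
        ∑ p ∈ P, 1 / (p : ℝ) + ∑ p ∈ (range y).filter (fun p => p ≤ D), (1 : ℝ) := by
      rw [hP, Finset.sum_filter, Finset.sum_filter, ← Finset.sum_add_distrib]
      refine Finset.sum_le_sum fun p _ => ?_
      by_cases hpQ : p ∈ Q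
      · rw [Set.indicator_of_mem hpQ]
        by_cases hD : D < p
        · rw [if_pos ⟨hpQ, hD⟩, if_neg (by omega)]
          simp
        · rw [if_neg (fun h => hD h.2), if_pos (by omega), zero_add]
          have h2 : (1 : ℝ) ≤ p := by exact_mod_cast (hQ p hpQ).one_lt.le
          rw [div_le_one (by linarith)]
          exact h2
      · rw [Set.indicator_of_notMem hpQ]
        split_ifs <;> positivity
    have h2 : ∑ p ∈ (range y).filter (fun p => p ≤ D), (1 : ℝ) ≤ D + 1 := by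
      rw [Finset.sum_const, nsmul_eq_mul, mul_one]
      have h3 : ((range y).filter (fun p => p ≤ D)).card ≤ (range (D + 1)).card := by
        apply Finset.card_le_card
        intro p hp
        simp only [Finset.mem_filter, Finset.mem_range] at hp ⊢
        omega
      rw [Finset.card_range] at h3
      exact_mod_cast h3
    linarith
  have hPm : ∀ p ∈ P, p < y ∧ p ∈ Q ∧ p.Prime ∧ D < p := by
    intro p hp
    simp only [hP, Finset.mem_filter, Finset.mem_range] at hp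
    exact ⟨hp.1, hp.2.1, hQ p hp.2.1, hp.2.2⟩
  -- large N
  set H : ℕ := y ^ 4 + ⌈4 / ε'⌉₊ with hH
  obtain ⟨N₁, hN₁⟩ := hw H
  refine ⟨N₁, fun N hN => ?_⟩
  have hws := hN₁ N hN
  have hbad : ∀ l : ι, (((S N).filter fun n => ∀ p ∈ P, red (p ^ 2) (x n) ∉ Om l p).card : ℝ) ≤
      (2 * ε') * (S N).card := by
    intro l
    have hμ : 2 / ε' ≤ ∑ p ∈ P, dens (Om l p) := by
      calc 2 / ε' = 1 / 2 ^ r * (2 ^ r * (2 / ε')) := by field_simp
        _ ≤ 1 / 2 ^ r * ∑ p ∈ P, 1 / (p : ℝ) := by gcongr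
        _ = ∑ p ∈ P, 1 / 2 ^ r * (1 / (p : ℝ)) := by rw [Finset.mul_sum]
        _ ≤ _ := Finset.sum_le_sum fun p hp => dens_Om l p (hPm p hp).2.2.1.two_le
    have hμ0 : 0 < ∑ p ∈ P, dens (Om l p) := lt_of_lt_of_le (by positivity) hμ
    have h1 := turan hws P (fun p => p ^ 2) (fun p hp => Nat.pos_of_ne_zero (by
        have := (hPm p hp).2.2.1.pos
        positivity)) (fun p hp p' hp' hne =>
        Nat.Coprime.pow 2 2 ((Nat.coprime_primes (hPm p hp).2.2.1 (hPm p' hp').2.2.1).mpr hne))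
      (fun p hp p' hp' => by
        have a1 : p ^ 2 ≤ y ^ 2 := Nat.pow_le_pow_left (hPm p hp).1.le 2
        have a2 : p' ^ 2 ≤ y ^ 2 := Nat.pow_le_pow_left (hPm p' hp').1.le 2
        calc p ^ 2 * p' ^ 2 ≤ y ^ 2 * y ^ 2 := Nat.mul_le_mul a1 a2
          _ = y ^ 4 := by ring
          _ ≤ 2 * H + 1 := by omega)
      (fun p => Om l p) _ rfl hμ0
    refine h1.trans ?_
    have h2 : 2 / (∑ p ∈ P, dens (Om l p)) ≤ ε' := by
      rw [div_le_iff₀ hμ0]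
      rw [div_le_iff₀ hε'0] at hμ
      linarith
    have h3 : (4 : ℝ) / (2 * H + 1) ≤ ε' := by
      have h4 : 4 / ε' ≤ (H : ℝ) := (Nat.le_ceil _).trans (by exact_mod_cast (by omega : ⌈4 / ε'⌉₊ ≤ H))
      rw [div_le_iff₀ hε'0] at h4
      rw [div_le_iff₀ (by positivity)]
      nlinarith
    gcongr
    linarith
  have hsub : {n : ℕ | n ∈ S N ∧ ¬ ∀ l : ι, ∃ p ∈ Q, D < p ∧ Ex l p (x n)} ⊆
      ↑(Finset.univ.biUnion fun l : ι => (S N).filter fun n => ∀ p ∈ P, red (p ^ 2) (x n) ∉ Om l p) := by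
    rintro n ⟨hn, hn'⟩
    push Not at hn'
    obtain ⟨l, hl⟩ := hn'
    simp only [Finset.coe_biUnion, Set.mem_iUnion, Finset.mem_coe, Finset.mem_univ, Finset.mem_filter,
      exists_prop, true_and]
    refine ⟨l, hn, fun p hp => ?_⟩
    rw [mem_Om l p (hPm p hp).2.2.1.one_lt.le]
    exact hl p (hPm p hp).2.1 (hPm p hp).2.2.2
  have h1 : ({n : ℕ | n ∈ S N ∧ ¬ ∀ l : ι, ∃ p ∈ Q, D < p ∧ Ex l p (x n)}.ncard : ℝ) ≤
      ((Finset.univ.biUnion fun l : ι =>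
        (S N).filter fun n => ∀ p ∈ P, red (p ^ 2) (x n) ∉ Om l p).card : ℝ) := by
    have := Set.ncard_le_ncard hsub (Finset.finite_toSet _)
    rw [Set.ncard_coe_finset] at this
    exact_mod_cast this
  refine h1.trans ?_
  have h2 : ((Finset.univ.biUnion fun l : ι =>
        (S N).filter fun n => ∀ p ∈ P, red (p ^ 2) (x n) ∉ Om l p).card : ℝ) ≤
      ∑ l : ι, (((S N).filter fun n => ∀ p ∈ P, red (p ^ 2) (x n) ∉ Om l p).card : ℝ) := by
    exact_mod_cast Finset.card_biUnion_le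
  refine h2.trans ?_
  refine (Finset.sum_le_sum fun l _ => hbad l).trans ?_
  rw [Finset.sum_const, Finset.card_univ, nsmul_eq_mul, ← hr]
  have h3 : (r : ℝ) * (2 * ε') ≤ ε := by
    rw [hε']
    have : (r : ℝ) * (2 * (ε / (2 * (r + 1)))) = ε * (r / (r + 1)) := by field_simp
    rw [this]
    have h4 : (r : ℝ) / (r + 1) ≤ 1 := by rw [div_le_one (by positivity)]; linarith
    nlinarith
  calc (r : ℝ) * (2 * ε' * (S N).card) = (r * (2 * ε')) * (S N).card := by ring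
    _ ≤ _ := by gcongr

end

/-- The sets of primes with `δ π(N) - C ≤ #(Q ∩ [0, N))` have a divergent sum of reciprocals. -/
theorem div_of_count (Q : Set ℕ) (hQ : ∀ p ∈ Q, p.Prime) (δ C : ℝ) (hδ : 0 < δ)
    (hcount : ∀ N : ℕ, δ * (∑ n ∈ range N, Set.indicator {p | p.Prime} (fun _ => (1 : ℝ)) n) - C ≤
      ∑ n ∈ range N, Set.indicator Q (fun _ => (1 : ℝ)) n) (B : ℝ) :
    ∃ y : ℕ, B ≤ ∑ p ∈ range y, Set.indicator Q (fun p : ℕ => 1 / (p : ℝ)) p := by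
  obtain ⟨N, hN⟩ := Pool.Agent.W723.SecC.diverge Q δ C hδ hcount B
  refine ⟨N, hN.trans (Finset.sum_le_sum fun p _ => ?_)⟩
  by_cases hp : p ∈ Q
  · rw [Set.indicator_of_mem hp, Set.indicator_of_mem hp, one_mul]
    have h1 : (0 : ℝ) < p := by exact_mod_cast (hQ p hp).pos
    exact one_div_le_one_div_of_le h1 (by linarith)
  · rw [Set.indicator_of_notMem hp, Set.indicator_of_notMem hp, zero_mul]

theorem null_union {S : ℕ → Finset ℕ} {A B : Set ℕ} (hA : NullIn S A) (hB : NullIn S B) :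
    NullIn S (A ∪ B) := by
  intro ε hε
  obtain ⟨N₁, h₁⟩ := hA (ε / 2) (by positivity)
  obtain ⟨N₂, h₂⟩ := hB (ε / 2) (by positivity)
  refine ⟨max N₁ N₂, fun N hN => ?_⟩
  have a1 := h₁ N ((le_max_left _ _).trans hN)
  have a2 := h₂ N ((le_max_right _ _).trans hN)
  have e : {t : ℕ | t ∈ S N ∧ t ∈ A ∪ B} = {t : ℕ | t ∈ S N ∧ t ∈ A} ∪ {t : ℕ | t ∈ S N ∧ t ∈ B} := by
    ext t
    simp only [Set.mem_ofPred_eq, Set.mem_union]
    tauto
  rw [e]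
  have h3 : ((({t : ℕ | t ∈ S N ∧ t ∈ A} ∪ {t : ℕ | t ∈ S N ∧ t ∈ B}).ncard : ℕ) : ℝ) ≤
      ({t : ℕ | t ∈ S N ∧ t ∈ A}.ncard : ℝ) + ({t : ℕ | t ∈ S N ∧ t ∈ B}.ncard : ℝ) := by
    exact_mod_cast Set.ncard_union_le _ _
  linarith

theorem null_empty {S : ℕ → Finset ℕ} : NullIn S (∅ : Set ℕ) := by
  intro ε hε
  refine ⟨0, fun N _ => ?_⟩
  have e : {t : ℕ | t ∈ S N ∧ t ∈ (∅ : Set ℕ)} = ∅ := by
    ext t; simp
  rw [e, Set.ncard_empty, Nat.cast_zero]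
  positivity

theorem null_biUnion {S : ℕ → Finset ℕ} {A : ℕ → Set ℕ} (hA : ∀ j, NullIn S (A j)) (k : ℕ) :
    NullIn S {t | ∃ j ≤ k, t ∈ A j} := by
  induction k with
  | zero =>
    have e : {t | ∃ j ≤ 0, t ∈ A j} = A 0 := by
      ext t
      simp
    rw [e]
    exact hA 0
  | succ k ih =>
    have e : {t | ∃ j ≤ k + 1, t ∈ A j} = {t | ∃ j ≤ k, t ∈ A j} ∪ A (k + 1) := by
      ext t
      simp only [Set.mem_ofPred_eq, Set.mem_union]
      constructor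
      · rintro ⟨j, hj, ht⟩
        rcases Nat.lt_or_ge j (k + 1) with h | h
        · exact Or.inl ⟨j, by omega, ht⟩
        · obtain rfl : j = k + 1 := by omega
          exact Or.inr ht
      · rintro (⟨j, hj, ht⟩ | ht)
        · exact ⟨j, by omega, ht⟩
        · exact ⟨k + 1, le_rfl, ht⟩
    rw [e]
    exact null_union ih (hA (k + 1))

/-- for `l ≤ k` there is a prime of `Q` above `k` which divides `z l t` exactly and does not divide the
others -/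
def GoodIn (z : ℕ → ℕ → ℤ) (Q : Set ℕ) (k t : ℕ) : Prop :=
  ∀ l < k + 1, ∃ p ∈ Q, k < p ∧ (p : ℤ) ∣ z l t ∧ ¬ (p : ℤ) ^ 2 ∣ z l t ∧
    ∀ i < k + 1, i ≠ l → ¬ (p : ℤ) ∣ z i t

theorem null_good {S : ℕ → Finset ℕ} {z : ℕ → ℕ → ℤ} (h : UD S z) (Q : Set ℕ)
    (hQ : ∀ p ∈ Q, p.Prime) (hdiv : ∀ B : ℝ, ∃ y : ℕ, B ≤ ∑ p ∈ range y,
      Set.indicator Q (fun p : ℕ => 1 / (p : ℝ)) p) (k : ℕ) :
    NullIn S {t : ℕ | ¬ GoodIn z Q k t} := by
  have hsub : ∀ S : Finset ℕ, {t : ℕ | t ∈ S ∧ t ∈ {t : ℕ | ¬ GoodIn z Q k t}} ⊆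
      {n : ℕ | n ∈ S ∧ ¬ ∀ l : Fin (k + 1), ∃ p ∈ Q, k < p ∧
        Ex l p ((fun (t : ℕ) (i : Fin (k + 1)) => z (Fin.val i) t) n)} := by
    rintro S t ⟨ht, hg⟩
    refine ⟨ht, fun hall => hg ?_⟩
    intro l hl
    obtain ⟨p, h1, h2, h3, h4, h5⟩ := hall ⟨l, hl⟩
    refine ⟨p, h1, h2, h3, h4, fun i hi hne => h5 ⟨i, hi⟩ ?_⟩
    intro heq
    exact hne (congrArg Fin.val heq)
  intro ε hε
  obtain ⟨N₀, hN₀⟩ := ex_dens_in (x := fun (t : ℕ) (i : Fin (k + 1)) => z (Fin.val i) t)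
    (fun H => h.well Fin.val_injective H) Q hQ hdiv k ε hε
  refine ⟨N₀, fun N hN => le_trans ?_ (hN₀ N hN)⟩
  exact_mod_cast Set.ncard_le_ncard (hsub _) ((Finset.finite_toSet _).subset fun t ht => ht.1)

theorem null_seq {S₁ S₂ : ℕ → Finset ℕ} (hS₁ : ∀ N, S₁ N ⊆ Ioc N (2 * N))
    (hS₂ : ∀ N, S₂ N ⊆ Ioc N (2 * N)) {z : ℕ → ℕ → ℤ} (h₁ : UD S₁ z) (h₂ : UD S₂ z)
    (Q : ℕ → Set ℕ) (hQ : ∀ j, ∀ p ∈ Q j, p.Prime)
    (hdiv : ∀ j, ∀ B : ℝ, ∃ y : ℕ, B ≤ ∑ p ∈ range y,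
      Set.indicator (Q j) (fun p : ℕ => 1 / (p : ℝ)) p) :
    ∃ E : Set ℕ, NullIn S₁ E ∧ NullIn S₂ E ∧
      ∀ j k, {t : ℕ | t ∉ E ∧ ¬ GoodIn z (Q j) k t}.Finite := by
  classical
  have hmon : ∀ (j k k' t : ℕ), k ≤ k' → GoodIn z (Q j) k' t → GoodIn z (Q j) k t := by
    intro j k k' t hkk hgood l hl
    obtain ⟨p, h1, h2, h3, h4, h5⟩ := hgood l (by omega)
    exact ⟨p, h1, by omega, h3, h4, fun i hi => h5 i (by omega)⟩
  have hmono : Monotone (fun k => {t : ℕ | ∃ j ≤ k, t ∈ {t : ℕ | ¬ GoodIn z (Q j) k t}}) := by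
    intro k k' hkk t ht
    obtain ⟨j, hj, ht⟩ := ht
    exact ⟨j, hj.trans hkk, fun hg => ht (hmon j k k' t hkk hg)⟩
  obtain ⟨E, h1, h2, h3⟩ := diag hmono hS₁ hS₂
    (fun k => null_biUnion (A := fun j => {t : ℕ | ¬ GoodIn z (Q j) k t})
      (fun j => null_good h₁ (Q j) (hQ j) (hdiv j) k) k)
    (fun k => null_biUnion (A := fun j => {t : ℕ | ¬ GoodIn z (Q j) k t})
      (fun j => null_good h₂ (Q j) (hQ j) (hdiv j) k) k)
  refine ⟨E, h1, h2, fun j k => (h3 (max j k)).subset ?_⟩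
  rintro t ⟨ht, ht'⟩
  refine ⟨⟨j, le_max_left _ _, fun hg => ht' (hmon j k (max j k) t (le_max_right _ _) hg)⟩, ht⟩

/-- the products of powers of the members of the sequences -/
def prodval (z : ℕ → ℕ → ℤ) (s : Finset ℕ) (e : ℕ → ℕ) (u : ℤ) (t : ℕ) : ℤ :=
  u * ∏ l ∈ s, z l t ^ e l

/-- an exact prime divisor of the product -/
theorem exact_prod {z : ℕ → ℕ → ℤ} {Q : Set ℕ} (hQ : ∀ p ∈ Q, p.Prime)
    {s : Finset ℕ} {e : ℕ → ℕ} {u : ℤ} (hu : u ≠ 0) {l : ℕ} (hl : l ∈ s) (he : e l = 1) {k t : ℕ}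
    (hk : ∀ i ∈ s, i ≤ k) (hku : u.natAbs ≤ k) (hg : GoodIn z Q k t) :
    ∃ p ∈ Q, (p : ℤ) ∣ prodval z s e u t ∧ ¬ (p : ℤ) ^ 2 ∣ prodval z s e u t := by
  obtain ⟨p, hp, hkp, h1, h2, h3⟩ := hg l (by have := hk l hl; omega)
  have hpp : Prime (p : ℤ) := Nat.prime_iff_prime_int.mp (hQ p hp)
  have hpu : ¬ (p : ℤ) ∣ u := by
    intro hd
    have h4 := Int.natCast_dvd.1 hd
    have := Nat.le_of_dvd (Int.natAbs_pos.2 hu) h4
    omega
  have hrest : ¬ (p : ℤ) ∣ u * ∏ i ∈ s.erase l, z i t ^ e i := by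
    intro hd
    rcases hpp.dvd_or_dvd hd with hd | hd
    · exact hpu hd
    · obtain ⟨i, hi, hd⟩ := (hpp.dvd_finsetProd_iff _).1 hd
      have hi' := Finset.mem_erase.1 hi
      exact h3 i (by have := hk i hi'.2; omega) hi'.1 (hpp.dvd_of_dvd_pow hd)
  have hsplit : prodval z s e u t = z l t * (u * ∏ i ∈ s.erase l, z i t ^ e i) := by
    unfold prodval
    rw [← Finset.mul_prod_erase s _ hl, he, pow_one]
    ring
  refine ⟨p, hp, ?_, ?_⟩
  · rw [hsplit]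
    exact Dvd.dvd.mul_right h1 _
  · rw [hsplit]
    intro hd
    have hco : IsCoprime ((p : ℤ) ^ 2) (u * ∏ i ∈ s.erase l, z i t ^ e i) :=
      IsCoprime.pow_left ((Prime.coprime_iff_not_dvd hpp).2 hrest)
    exact h2 (hco.dvd_of_dvd_mul_right hd)

/-- all primes -/
theorem div_primes (B : ℝ) : ∃ y : ℕ, B ≤ ∑ p ∈ range y,
    Set.indicator {p : ℕ | p.Prime} (fun p : ℕ => 1 / (p : ℝ)) p := by
  have hnn : ∀ p : ℕ, 0 ≤ Set.indicator {p : ℕ | p.Prime} (fun p : ℕ => 1 / (p : ℝ)) p :=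
    fun p => Set.indicator_nonneg (fun _ _ => by positivity) p
  have ht := (not_summable_iff_tendsto_nat_atTop_of_nonneg hnn).mp not_summable_one_div_on_primes
  exact (ht.eventually_ge_atTop B).exists

/-- `P a` holds if `a` has an exact prime divisor in each of finitely many given sets of primes with
divergent sums of reciprocals -/
def Crit (P : ℤ → Prop) : Prop :=
  ∃ (r : ℕ) (Q : Fin r → Set ℕ), (∀ i, ∀ p ∈ Q i, p.Prime) ∧
    (∀ i, ∀ B : ℝ, ∃ y : ℕ, B ≤ ∑ p ∈ range y, Set.indicator (Q i) (fun p : ℕ => 1 / (p : ℝ)) p) ∧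
    ∀ a : ℤ, (∀ i, ∃ p ∈ Q i, (p : ℤ) ∣ a ∧ ¬ (p : ℤ) ^ 2 ∣ a) → P a

theorem Crit.mono {P P' : ℤ → Prop} (h : Crit P) (h' : ∀ a, P a → P' a) : Crit P' := by
  obtain ⟨r, Q, h1, h2, h3⟩ := h
  exact ⟨r, Q, h1, h2, fun a ha => h' a (h3 a ha)⟩

theorem Crit.of_forall {P : ℤ → Prop} (h : ∀ a, P a) : Crit P :=
  ⟨0, Fin.elim0, fun i => i.elim0, fun i => i.elim0, fun a _ => h a⟩

theorem crit_of_finset {α : Type*} (Δ : Finset α) {P : ℤ → Prop} (R : α → ℕ → Prop)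
    (hex : ∀ s ∈ Δ, ∃ Q : Set ℕ, (∀ p ∈ Q, p.Prime ∧ R s p) ∧ ∀ B : ℝ, ∃ y : ℕ, B ≤ ∑ p ∈ range y,
      Set.indicator Q (fun p : ℕ => 1 / (p : ℝ)) p)
    (hP : ∀ a : ℤ, (∀ s ∈ Δ, ∃ p : ℕ, p.Prime ∧ R s p ∧ (p : ℤ) ∣ a ∧ ¬ (p : ℤ) ^ 2 ∣ a) → P a) :
    Crit P := by
  have hex' : ∀ s : Δ, ∃ Q : Set ℕ, (∀ p ∈ Q, p.Prime ∧ R s p) ∧ ∀ B : ℝ, ∃ y : ℕ,
      B ≤ ∑ p ∈ range y, Set.indicator Q (fun p : ℕ => 1 / (p : ℝ)) p := fun s => hex s.1 s.2
  choose Q hQ1 hQ2 using hex'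
  refine ⟨Δ.card, fun i => Q (Δ.equivFin.symm i), fun i p hp => (hQ1 _ p hp).1, fun i => hQ2 _,
    fun a ha => hP a fun s hs => ?_⟩
  obtain ⟨p, hp, h1, h2⟩ := ha (Δ.equivFin ⟨s, hs⟩)
  have hp' : p ∈ Q (Δ.equivFin.symm (Δ.equivFin ⟨s, hs⟩)) := hp
  rw [Equiv.symm_apply_apply] at hp'
  exact ⟨p, (hQ1 _ p hp').1, (hQ1 _ p hp').2, h1, h2⟩

/-- **One null set for countably many criteria.** -/
theorem thin_crit {S₁ S₂ : ℕ → Finset ℕ} (hS₁ : ∀ N, S₁ N ⊆ Ioc N (2 * N))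
    (hS₂ : ∀ N, S₂ N ⊆ Ioc N (2 * N)) {z : ℕ → ℕ → ℤ} (h₁ : UD S₁ z) (h₂ : UD S₂ z)
    {D : Type} [Countable D] (P : D → ℤ → Prop) (hP : ∀ d, Crit (P d)) :
    ∃ E : Set ℕ, NullIn S₁ E ∧ NullIn S₂ E ∧
      ∀ (d : D) (s : Finset ℕ) (e : ℕ → ℕ) (u : ℤ), u ≠ 0 → (∃ l ∈ s, e l = 1) →
        {t : ℕ | t ∉ E ∧ ¬ P d (prodval z s e u t)}.Finite := by
  classical
  choose r Q hQ1 hQ2 hQ3 using hP
  have : Encodable (Σ d : D, Fin (r d)) := Encodable.ofCountable _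
  set Q' : ℕ → Set ℕ := fun n => match Encodable.decode (α := Σ d : D, Fin (r d)) n with
    | some x => Q x.1 x.2
    | none => {p : ℕ | p.Prime} with hQ'
  have e1 : ∀ (d : D) (i : Fin (r d)), Q' (Encodable.encode (⟨d, i⟩ : Σ d : D, Fin (r d))) =
      Q d i := by
    intro d i
    simp only [hQ', Encodable.encodek]
  obtain ⟨E, h1, h2, h3⟩ := null_seq hS₁ hS₂ h₁ h₂ Q' (by
    intro n p hp
    simp only [hQ'] at hp
    split at hp
    · exact hQ1 _ _ p hp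
    · exact hp) (by
    intro n B
    simp only [hQ']
    split
    · exact hQ2 _ _ B
    · exact div_primes B)
  refine ⟨E, h1, h2, fun d s e u hu ⟨l, hl, he⟩ => ?_⟩
  have hsub : {t : ℕ | t ∉ E ∧ ¬ P d (prodval z s e u t)} ⊆ ⋃ i : Fin (r d),
      {t : ℕ | t ∉ E ∧ ¬ GoodIn z (Q' (Encodable.encode (⟨d, i⟩ : Σ d : D, Fin (r d))))
        (s.sup id + u.natAbs) t} := by
    rintro t ⟨ht, ht'⟩
    rw [Set.mem_iUnion]
    by_contra hno
    push Not at hno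
    apply ht'
    apply hQ3
    intro i
    have h4 := hno i
    simp only [Set.mem_ofPred_eq, not_and, not_not] at h4
    have h5 := h4 ht
    rw [e1] at h5
    refine exact_prod (hQ1 d i) hu hl he (fun j hj => ?_) (by omega) h5
    have := Finset.le_sup (f := id) hj
    simp only [id] at this
    omega
  exact (Set.finite_iUnion fun i => h3 _ _).subset hsub

/-- the same for the members of a countable set which satisfy a condition -/
theorem thin_adm {S₁ S₂ : ℕ → Finset ℕ} (hS₁ : ∀ N, S₁ N ⊆ Ioc N (2 * N))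
    (hS₂ : ∀ N, S₂ N ⊆ Ioc N (2 * N)) {z : ℕ → ℕ → ℤ} (h₁ : UD S₁ z) (h₂ : UD S₂ z)
    {D : Type} (hD : Countable D) (A : D → Prop) (P : D → ℤ → Prop)
    (hP : ∀ d, A d → Crit (P d)) :
    ∃ E : Set ℕ, NullIn S₁ E ∧ NullIn S₂ E ∧
      ∀ d : D, A d → ∀ (s : Finset ℕ) (e : ℕ → ℕ) (u : ℤ), u ≠ 0 → (∃ l ∈ s, e l = 1) →
        {t : ℕ | t ∉ E ∧ ¬ P d (prodval z s e u t)}.Finite := by
  obtain ⟨E, h1, h2, h3⟩ := thin_crit hS₁ hS₂ h₁ h₂ (fun d x => A d → P d x) (fun d => by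
    by_cases hA : A d
    · exact (hP d hA).mono fun _ hx _ => hx
    · exact Crit.of_forall fun _ hx => absurd hx hA)
  refine ⟨E, h1, h2, fun d hA s e u hu hs => (h3 d s e u hu hs).subset ?_⟩
  rintro t ⟨ht, ht'⟩
  exact ⟨ht, fun hx => ht' (hx hA)⟩

theorem countable_poly : Countable (Polynomial ℤ) := by
  rw [← Cardinal.mk_le_aleph0_iff]
  exact Polynomial.cardinalMk_le_max.trans (by simp)

/-- the data: a number, an integer, a finite family of polynomials and a polynomial -/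
theorem countable_data :
    Countable (Σ r : ℕ, ℕ × ℤ × (Fin r → Polynomial ℤ) × Polynomial ℤ) := by
  have := countable_poly
  infer_instance

end Pool.Agent.N546.ZT
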