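import Pool.Agent.N24.RW.All
import Pool.Agent.N546.ZT.Seq

set_option autoImplicit false
set_option linter.unusedSectionVars false

/-! # Random orbits of thin groups: exact prime divisors of products of linear forms

Uses the engine `Pool.Agent.N24.RW` of helper24. -/

namespace Pool.Agent.N546.ZT

open Finset MeasureTheory Filter Topology Pool.Agent.N24.RW

section
variable {ι : Type} [Fintype ι]

/-- the product `u * ∏ j, (∑ i, L j i * c i) ^ e j` of powers of linear forms -/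
def lprod {k : ℕ} (L : Fin k → ι → ℤ) (e : Fin k → ℕ) (u : ℤ) (c : ι → ℤ) : ℤ :=
  u * ∏ j, (∑ i, L j i * c i) ^ e j

/-- one of the linear forms has the exponent one, is not zero and not proportional to another one
with a positive exponent -/
def Simple {k : ℕ} (L : Fin k → ι → ℤ) (e : Fin k → ℕ) : Prop :=
  ∃ l, e l = 1 ∧ (∃ i, L l i ≠ 0) ∧
    ∀ j, j ≠ l → e j ≠ 0 → ∃ i i', L l i * L j i' ≠ L l i' * L j i

/-- the linear form modulo `q` -/
def lin (q : ℕ) (a : ι → ℤ) : (ι → ZMod q) →+ ZMod q where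
  toFun ρ := ∑ i, (a i : ZMod q) * ρ i
  map_zero' := by simp
  map_add' x y := by simp [mul_add, Finset.sum_add_distrib]

lemma lin_apply (q : ℕ) (a : ι → ℤ) (ρ : ι → ZMod q) : lin q a ρ = ∑ i, (a i : ZMod q) * ρ i := rfl

lemma lin_cast (q : ℕ) (a c : ι → ℤ) :
    lin q a (fun i => (c i : ZMod q)) = ((∑ i, a i * c i : ℤ) : ZMod q) := by
  rw [lin_apply]
  push_cast
  rfl

lemma lin_single [DecidableEq ι] (q : ℕ) (a : ι → ℤ) (i : ι) (x : ZMod q) :
    lin q a (Pi.single i x) = a i * x := by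
  rw [lin_apply, Finset.sum_eq_single i]
  · rw [Pi.single_eq_same]
  · intro j _ hj
    rw [Pi.single_eq_of_ne hj, mul_zero]
  · intro h
    exact absurd (Finset.mem_univ i) h

lemma lin_surj {q : ℕ} (a : ι → ℤ) (i : ι) (h : IsUnit ((a i : ℤ) : ZMod q)) :
    Function.Surjective (lin q a) := by
  classical
  intro y
  obtain ⟨z, hz⟩ := h.exists_right_inv
  refine ⟨Pi.single i (z * y), ?_⟩
  rw [lin_single, ← mul_assoc, hz, one_mul]

lemma pair_surj {p : ℕ} [Fact p.Prime] (a b : ι → ℤ) (i i' : ι)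
    (hD : ¬ (p : ℤ) ∣ a i * b i' - a i' * b i) :
    Function.Surjective ((lin p a).prod (lin p b)) := by
  classical
  have hD' : (a i : ZMod p) * (b i' : ZMod p) - (a i' : ZMod p) * (b i : ZMod p) ≠ 0 := by
    intro h
    apply hD
    rw [← ZMod.intCast_zmod_eq_zero_iff_dvd]
    push_cast
    exact h
  rintro ⟨s, t⟩
  set D := (a i : ZMod p) * (b i' : ZMod p) - (a i' : ZMod p) * (b i : ZMod p) with hDdef
  refine ⟨Pi.single i ((s * b i' - t * a i') / D) + Pi.single i' ((t * a i - s * b i) / D), ?_⟩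
  rw [AddMonoidHom.prod_apply, map_add, map_add, lin_single, lin_single, lin_single, lin_single]
  refine Prod.ext ?_ ?_
  · change (a i : ZMod p) * ((s * b i' - t * a i') / D) + a i' * ((t * a i - s * b i) / D) = s
    field_simp
    rw [hDdef]
    ring
  · change (b i : ZMod p) * ((s * b i' - t * a i') / D) + b i' * ((t * a i - s * b i) / D) = t
    field_simp
    rw [hDdef]
    ring

lemma dvd_val_iff (p : ℕ) [hp : Fact p.Prime] (x : ZMod (p ^ 2)) :
    p ∣ x.val ↔ ZMod.castHom (dvd_pow_self p two_ne_zero) (ZMod p) x = 0 := by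
  have : NeZero (p ^ 2) := ⟨by have := hp.out.pos; positivity⟩
  rw [← ZMod.natCast_eq_zero_iff]
  have h1 : x = ((x.val : ℕ) : ZMod (p ^ 2)) := (ZMod.natCast_zmod_val x).symm
  conv_rhs => rw [h1]
  rw [map_natCast]

lemma cast_lin (p : ℕ) (a : ι → ℤ) (ρ : ι → ZMod (p ^ 2)) :
    ZMod.castHom (dvd_pow_self p two_ne_zero) (ZMod p) (lin (p ^ 2) a ρ) =
      lin p a (Clo.redu (ι := ι) (dvd_pow_self p two_ne_zero) ρ) := by
  rw [lin_apply, lin_apply, map_sum]
  refine Finset.sum_congr rfl fun i _ => ?_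
  rw [map_mul, map_intCast]
  rfl

/-- the residue classes -/
def OmL {k : ℕ} (p : ℕ) (L : Fin k → ι → ℤ) (e : Fin k → ℕ) (l : Fin k) : Set (ι → ZMod (p ^ 2)) :=
  {ρ | p ∣ (lin (p ^ 2) (L l) ρ).val ∧ (lin (p ^ 2) (L l) ρ).val ≠ 0 ∧
    ∀ j, j ≠ l → e j ≠ 0 → ¬ p ∣ (lin (p ^ 2) (L j) ρ).val}

lemma ncard_biUnion_le {α β : Type*} [Finite β] (s : Finset α) (V : α → Set β) :
    (⋃ j ∈ s, V j).ncard ≤ ∑ j ∈ s, (V j).ncard := by
  classical
  induction s using Finset.induction_on with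
  | empty => simp
  | insert a s ha ih =>
    rw [Finset.set_biUnion_insert, Finset.sum_insert ha]
    exact (Set.ncard_union_le _ _).trans (Nat.add_le_add_left ih _)

lemma count_Om {k : ℕ} (p : ℕ) [hp : Fact p.Prime] (L : Fin k → ι → ℤ) (e : Fin k → ℕ) (l : Fin k)
    (i₀ : ι) (h0 : ¬ (p : ℤ) ∣ L l i₀)
    (hpair : ∀ j, j ≠ l → e j ≠ 0 → ∃ i i', ¬ (p : ℤ) ∣ L l i * L j i' - L l i' * L j i)
    (hk : 2 * (k + 1) ≤ p) :
    1 / (2 * (p : ℝ)) * ((p ^ 2 : ℕ) : ℝ) ^ Fintype.card ι ≤ ((OmL p L e l).ncard : ℝ) := by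
  classical
  have hp0 : 0 < p := hp.out.pos
  have : NeZero (p ^ 2) := ⟨by positivity⟩
  have hunit : IsUnit ((L l i₀ : ℤ) : ZMod (p ^ 2)) := by
    rw [ZMod.coe_int_isUnit_iff_isCoprime]
    push_cast
    exact IsCoprime.pow_left ((Prime.coprime_iff_not_dvd (Nat.prime_iff_prime_int.1 hp.out)).2 h0)
  have hcard : Nat.card (ι → ZMod (p ^ 2)) = (p ^ 2) ^ Fintype.card ι := Clo.card_pi (p ^ 2)
  set G := (p ^ 2) ^ Fintype.card ι with hG
  -- the classes with `λ_l` exactly divisible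
  set T : Set (ZMod (p ^ 2)) := {x | p ∣ x.val ∧ x.val ≠ 0} with hT
  have hTc : p ≤ T.ncard + 1 := by
    have h1 : (Finset.univ.filter fun a : ZMod (p ^ 2) => p ∣ a.val) ⊆
        insert 0 (Finset.univ.filter fun a : ZMod (p ^ 2) => p ∣ a.val ∧ a.val ≠ 0) := by
      intro a ha
      simp only [Finset.mem_insert, Finset.mem_filter, Finset.mem_univ, true_and] at ha ⊢
      by_cases h0 : a = 0
      · exact Or.inl h0
      · exact Or.inr ⟨ha, by rwa [Ne, ZMod.val_eq_zero]⟩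
    have h2 := (Finset.card_le_card h1).trans (Finset.card_insert_le _ _)
    rw [one_card_mult p hp0] at h2
    have h3 : T.ncard = (Finset.univ.filter fun a : ZMod (p ^ 2) => p ∣ a.val ∧ a.val ≠ 0).card := by
      rw [← Set.ncard_coe_finset]
      congr 1
      ext x
      simp [hT]
    omega
  have hS := Clo.ncard_preimage (lin (p ^ 2) (L l)) (lin_surj (L l) i₀ hunit) T
  rw [hcard, Nat.card_eq_fintype_card, ZMod.card] at hS
  -- the classes with two divisible forms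
  set V : Fin k → Set (ι → ZMod (p ^ 2)) := fun j =>
    {ρ | p ∣ (lin (p ^ 2) (L l) ρ).val ∧ p ∣ (lin (p ^ 2) (L j) ρ).val} with hV
  have hVc : ∀ j, j ≠ l → e j ≠ 0 → (V j).ncard * p ^ 2 = G := by
    intro j hj hej
    obtain ⟨i, i', hii⟩ := hpair j hj hej
    have hsurj : Function.Surjective (((lin p (L l)).prod (lin p (L j))).comp
        (Clo.redu (ι := ι) (dvd_pow_self p two_ne_zero))) := by
      rw [AddMonoidHom.coe_comp]
      exact (pair_surj (L l) (L j) i i' hii).comp (Clo.redu_surj _)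
    have h1 := Clo.ncard_preimage _ hsurj {0}
    rw [hcard, Nat.card_prod, Nat.card_eq_fintype_card, ZMod.card, Set.ncard_singleton, one_mul,
      ← pow_two] at h1
    rw [← h1]
    congr 2
    ext ρ
    rw [Set.mem_preimage, Set.mem_singleton_iff, AddMonoidHom.comp_apply, AddMonoidHom.prod_apply,
      ← cast_lin, ← cast_lin, Prod.mk_eq_zero, ← dvd_val_iff, ← dvd_val_iff]
    rfl
  set J : Finset (Fin k) := Finset.univ.filter (fun j => j ≠ l ∧ e j ≠ 0) with hJ
  have hsub : (lin (p ^ 2) (L l)) ⁻¹' T ⊆ OmL p L e l ∪ ⋃ j ∈ J, V j := by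
    intro ρ hρ
    by_cases h : ∃ j ∈ J, p ∣ (lin (p ^ 2) (L j) ρ).val
    · right
      obtain ⟨j, hj, hj'⟩ := h
      exact Set.mem_biUnion hj ⟨hρ.1, hj'⟩
    · left
      push Not at h
      exact ⟨hρ.1, hρ.2, fun j h1 h2 => h j (by rw [hJ, Finset.mem_filter]; exact ⟨mem_univ _, h1, h2⟩)⟩
  have hle : ((lin (p ^ 2) (L l)) ⁻¹' T).ncard ≤ (OmL p L e l).ncard + ∑ j ∈ J, (V j).ncard :=
    (Set.ncard_le_ncard hsub (Set.toFinite _)).trans
      ((Set.ncard_union_le _ _).trans (Nat.add_le_add_left (ncard_biUnion_le J V) _))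
  have hsum : (∑ j ∈ J, (V j).ncard) * p ^ 2 ≤ k * G := by
    rw [Finset.sum_mul]
    calc ∑ j ∈ J, (V j).ncard * p ^ 2 ≤ ∑ j ∈ J, G := Finset.sum_le_sum fun j hj => by
          rw [hJ, Finset.mem_filter] at hj
          exact (hVc j hj.2.1 hj.2.2).le
      _ = J.card * G := by rw [Finset.sum_const, smul_eq_mul]
      _ ≤ k * G := Nat.mul_le_mul_right _ (by
          have := Finset.card_le_univ J
          rwa [Fintype.card_fin] at this)
  have hmain : p * G ≤ (OmL p L e l).ncard * p ^ 2 + (k + 1) * G := by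
    have h1 : p * G ≤ (T.ncard + 1) * G := Nat.mul_le_mul_right _ hTc
    have h2 : T.ncard * G ≤ ((OmL p L e l).ncard + ∑ j ∈ J, (V j).ncard) * p ^ 2 := by
      rw [← hS]
      exact Nat.mul_le_mul_right _ hle
    nlinarith
  have hpR : (0 : ℝ) < p := by exact_mod_cast hp0
  have hmain' : (p : ℝ) * G ≤ (OmL p L e l).ncard * (p : ℝ) ^ 2 + (k + 1) * G := by
    exact_mod_cast hmain
  have hkR : 2 * ((k : ℝ) + 1) ≤ p := by exact_mod_cast hk
  have hG0 : (0 : ℝ) ≤ G := Nat.cast_nonneg _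
  have hGe : ((p ^ 2 : ℕ) : ℝ) ^ Fintype.card ι = (G : ℝ) := by
    rw [hG]
    push_cast
    rfl
  rw [hGe, one_div, inv_mul_le_iff₀ (by positivity)]
  have h5 : (p : ℝ) * G ≤ 2 * ((OmL p L e l).ncard * (p : ℝ) ^ 2) := by nlinarith
  have h6 : (p : ℝ) * G ≤ (p : ℝ) * (2 * p * (OmL p L e l).ncard) := by nlinarith
  exact le_of_mul_le_mul_left h6 hpR

lemma pn_empty : ProNull (∅ : Set (ι → ℤ)) := by
  intro M _ ε hε
  refine ⟨1, Nat.one_pos, Nat.coprime_one_left M, ?_⟩
  rw [Set.image_empty, Set.ncard_empty]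
  simp only [Nat.cast_zero]
  positivity

lemma pn_biUnion {α : Type*} (s : Finset α) (B : α → Set (ι → ℤ)) (h : ∀ i ∈ s, ProNull (B i)) :
    ProNull (⋃ i ∈ s, B i) := by
  classical
  induction s using Finset.induction_on with
  | empty =>
    have h0 : (⋃ i ∈ (∅ : Finset α), B i) = ∅ := by simp
    rw [h0]
    exact pn_empty
  | insert a s ha ih =>
    rw [Finset.set_biUnion_insert]
    exact (clo ι).2.1 _ _ (h a (Finset.mem_insert_self _ _))
      (ih fun i hi => h i (Finset.mem_insert_of_mem hi))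

lemma not_dvd_small {p : ℕ} {x : ℤ} (hx : x ≠ 0) (h : x.natAbs < p) : ¬ (p : ℤ) ∣ x := by
  intro hd
  have := Int.natAbs_dvd_natAbs.2 hd
  rw [Int.natAbs_natCast] at this
  have := Nat.le_of_dvd (Int.natAbs_pos.2 hx) this
  omega

/-- Almost all vectors: the product of powers of linear forms has an exact prime divisor in a given
set of primes with divergent sum of reciprocals. -/
theorem pn_exact {k : ℕ} (Q : Set ℕ) (hQ : ∀ p ∈ Q, p.Prime)
    (hdiv : ∀ B : ℝ, ∃ y : ℕ, B ≤ ∑ p ∈ range y, Set.indicator Q (fun p : ℕ => 1 / (p : ℝ)) p)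
    (L : Fin k → ι → ℤ) (e : Fin k → ℕ) (u : ℤ) (hu : u ≠ 0) (hL : Simple L e) :
    ProNull {c : ι → ℤ | ¬ ∃ p ∈ Q, (p : ℤ) ∣ lprod L e u c ∧ ¬ (p : ℤ) ^ 2 ∣ lprod L e u c} := by
  classical
  obtain ⟨l, hl, ⟨i₀, hi₀⟩, hj⟩ := hL
  choose i1 i2 hmin using hj
  set M : Fin k → ℕ := fun j => if h : j ≠ l ∧ e j ≠ 0 then
    (L l (i1 j h.1 h.2) * L j (i2 j h.1 h.2) - L l (i2 j h.1 h.2) * L j (i1 j h.1 h.2)).natAbs
    else 0 with hM
  set T₀ : ℕ := 2 * (k + 1) + u.natAbs + (L l i₀).natAbs + ∑ j, M j with hT₀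
  set w : ℕ → ℝ := fun p => if p ∈ Q then 1 / (2 * (p : ℝ)) else 0 with hw
  have hw0 : ∀ p, 0 ≤ w p := by
    intro p
    simp only [hw]
    split_ifs <;> positivity
  have hns : ¬ Summable (fun p : ℕ => if p.Prime then w p else 0) := by
    intro hsum
    obtain ⟨y, hy⟩ := hdiv (2 * (∑' p : ℕ, if p.Prime then w p else 0) + 1)
    have h1 := hsum.sum_le_tsum (range y) (fun p _ => by split_ifs <;> [exact hw0 p; exact le_rfl])
    have h2 : ∑ p ∈ range y, Set.indicator Q (fun p : ℕ => 1 / (p : ℝ)) p =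
        2 * ∑ p ∈ range y, (if p.Prime then w p else 0) := by
      rw [Finset.mul_sum]
      refine Finset.sum_congr rfl fun p _ => ?_
      by_cases hp : p ∈ Q
      · rw [Set.indicator_of_mem hp, if_pos (hQ p hp)]
        simp only [hw, if_pos hp]
        rw [one_div, one_div, mul_inv]
        ring
      · rw [Set.indicator_of_notMem hp]
        simp only [hw, if_neg hp]
        simp
    linarith
  have h := crit ι (fun p => p ^ 2) (fun p hp => Nat.pos_of_ne_zero (by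
      have := hp.pos
      positivity)) (fun p p' hp hp' hne =>
      Nat.Coprime.pow 2 2 ((Nat.coprime_primes hp hp').mpr hne))
    (fun p => {ρ | p ∈ Q ∧ ρ ∈ OmL p L e l}) T₀ w hw0 hns (by
      intro p hp hpT
      by_cases hpQ : p ∈ Q
      · have : Fact p.Prime := ⟨hp⟩
        have h1 : {ρ : ι → ZMod (p ^ 2) | p ∈ Q ∧ ρ ∈ OmL p L e l} = OmL p L e l := by
          ext ρ
          simp [hpQ]
        rw [h1]
        simp only [hw, if_pos hpQ]
        refine count_Om p L e l i₀ (not_dvd_small hi₀ (by omega)) (fun j h2 h3 =>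
          ⟨i1 j h2 h3, i2 j h2 h3, not_dvd_small (sub_ne_zero.2 (hmin j h2 h3)) ?_⟩) (by omega)
        have h4 : M j ≤ ∑ j, M j := Finset.single_le_sum (fun _ _ => Nat.zero_le _) (mem_univ j)
        have h5 : M j = (L l (i1 j h2 h3) * L j (i2 j h2 h3) -
            L l (i2 j h2 h3) * L j (i1 j h2 h3)).natAbs := by
          simp only [hM]
          rw [dif_pos ⟨h2, h3⟩]
        omega
      · simp only [hw, if_neg hpQ, zero_mul]
        positivity)
  refine (clo ι).1 _ _ ?_ h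
  intro c hc p hp hpT hmem
  apply hc
  obtain ⟨hpQ, h1, h2, h3⟩ := hmem
  have hpp : Prime (p : ℤ) := Nat.prime_iff_prime_int.1 hp
  rw [lin_cast, one_dvd p hp.one_lt.le] at h1
  rw [lin_cast, one_val_ne p hp.one_lt.le] at h2
  have h3' : ∀ j, j ≠ l → e j ≠ 0 → ¬ (p : ℤ) ∣ ∑ i, L j i * c i := by
    intro j h4 h5
    have h6 := h3 j h4 h5
    rwa [lin_cast, one_dvd p hp.one_lt.le] at h6
  have hsplit : lprod L e u c = (∑ i, L l i * c i) *
      (u * ∏ j ∈ univ.erase l, (∑ i, L j i * c i) ^ e j) := by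
    unfold lprod
    rw [← Finset.mul_prod_erase _ _ (mem_univ l), hl, pow_one]
    ring
  have hrest : ¬ (p : ℤ) ∣ u * ∏ j ∈ univ.erase l, (∑ i, L j i * c i) ^ e j := by
    intro hd
    rcases hpp.dvd_or_dvd hd with h4 | h4
    · exact not_dvd_small hu (by omega) h4
    · obtain ⟨j, hj, h5⟩ := (Prime.dvd_finset_prod_iff hpp _).1 h4
      have h6 : e j ≠ 0 := by
        intro h7
        rw [h7, pow_zero] at h5
        exact hpp.not_unit (isUnit_of_dvd_one h5)
      exact h3' j (Finset.ne_of_mem_erase hj) h6 (hpp.dvd_of_dvd_pow h5)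
  refine ⟨p, hpQ, ?_, ?_⟩
  · rw [hsplit]
    exact Dvd.dvd.mul_right h1 _
  · rw [hsplit]
    intro hd
    have hco : IsCoprime ((p : ℤ) ^ 2) (u * ∏ j ∈ univ.erase l, (∑ i, L j i * c i) ^ e j) :=
      IsCoprime.pow_left ((Prime.coprime_iff_not_dvd hpp).2 hrest)
    exact h2 (hco.dvd_of_dvd_mul_right hd)

/-- **The exceptional parameter vectors form a pronull set.** -/
theorem pn_crit {k : ℕ} {P : ℤ → Prop} (hP : Crit P) (L : Fin k → ι → ℤ) (e : Fin k → ℕ) (u : ℤ)
    (hu : u ≠ 0) (hL : Simple L e) : ProNull {c : ι → ℤ | ¬ P (lprod L e u c)} := by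
  obtain ⟨r, Q, h1, h2, h3⟩ := hP
  refine (clo ι).1 _ _ ?_ (pn_biUnion (Finset.univ : Finset (Fin r)) _
    fun i _ => pn_exact (Q i) (h1 i) (h2 i) L e u hu hL)
  intro c hc
  by_contra hno
  apply hc
  apply h3
  intro i
  by_contra hi
  exact hno (Set.mem_biUnion (Finset.mem_univ i) hi)

/-- **Random orbits**: almost surely for countably many criteria and all products of linear forms. -/
theorem orb_adm [DecidableEq ι] (hι : 2 ≤ Fintype.card ι) (W : Walk ι) (v : ι → ℤ) (hv : v ≠ 0)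
    {D : Type} (hD : Countable D) (A : D → Prop) (P : D → ℤ → Prop) (hP : ∀ d, A d → Crit (P d)) :
    ∀ᵐ w ∂(words W.m), ∀ d, A d → ∀ (k : ℕ) (L : Fin k → ι → ℤ) (e : Fin k → ℕ) (u : ℤ), u ≠ 0 →
      Simple L e → Tendsto (fun N : ℕ =>
        (({n : ℕ | n < N ∧ ¬ P d (lprod L e u (orb W v w n))}.ncard : ℕ) : ℝ) / (N : ℝ)) atTop (𝓝 0) := by
  rw [ae_all_iff]
  intro d
  by_cases hA : A d
  · have h1 : ∀ᵐ w ∂(words W.m), ∀ x : (Σ k : ℕ, (Fin k → ι → ℤ) × (Fin k → ℕ) × ℤ), x.2.2.2 ≠ 0 →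
        Simple x.2.1 x.2.2.1 → Tendsto (fun N : ℕ =>
        (({n : ℕ | n < N ∧ ¬ P d (lprod x.2.1 x.2.2.1 x.2.2.2 (orb W v w n))}.ncard : ℕ) : ℝ) /
          (N : ℝ)) atTop (𝓝 0) := by
      rw [ae_all_iff]
      intro x
      by_cases hu : x.2.2.2 ≠ 0
      · by_cases hL : Simple x.2.1 x.2.2.1
        · filter_upwards [main ι hι W v hv _ (pn_crit (hP d hA) x.2.1 x.2.2.1 x.2.2.2 hu hL)]
            with w hw _ _
          exact hw
        · exact Eventually.of_forall fun w _ h => absurd h hL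
      · exact Eventually.of_forall fun w h => absurd h hu
    filter_upwards [h1] with w hw _ k L e u hu hL
    exact hw ⟨k, L, e, u⟩ hu hL
  · exact Eventually.of_forall fun w h => absurd h hA

end

end Pool.Agent.N546.ZT
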